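import Pool.Agent.Q307.HE.Main

/-!
# Under CH there is a homogeneous entangled set of reals
-/

set_option autoImplicit false

namespace Pool.Agent.Results.MP_919a9a_lc.HomogeneousUnderCH

open Cardinal Pool.Agent.Q307.HE

/-- The continuum hypothesis gives an entangled set of reals which, with its subspace topology,
is a homogeneous space. -/
theorem result (CH : (𝔠 : Cardinal.{0}) = ℵ₁) :
    ∃ E : Set ℝ, Entangled E ∧ Homogeneous E :=
  main CH

end Pool.Agent.Results.MP_919a9a_lc.HomogeneousUnderCH
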